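import Pool.Agent.X154.HP.Final

set_option autoImplicit false

/-!
Every complete conformal metric `lam |dz|²` on `ℂ` with Gauss curvature between `-c` and `0` admits a
nonconstant entire function of Hadamard order at most one, and of exponential type in the distance.
-/

namespace Pool.Agent.Results.MP_1759d0_gt.HadamardOrderOne

open Pool.Agent.X154.HP

theorem result (lam : ℂ → ℝ) (hg : IsMetric lam) (hcomp : Complete lam) (c : ℝ) (hc : 0 < c)
    (hK : ∀ z, -c ≤ gaussK lam z ∧ gaussK lam z ≤ 0) :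
    ∃ f : ℂ → ℂ, Differentiable ℂ f ∧ (∃ a b, f a ≠ f b) ∧ OrdH lam f ≤ 1 ∧
      ∃ C : ℝ, ∀ z, Real.log (1 + ‖f z‖ ^ 2) ≤ C * gdist lam z 0 := by
  obtain ⟨⟨C, _, hC⟩, h2⟩ := main_theorem hg hcomp hc.le hK
  exact ⟨fun z => z, differentiable_id, ⟨0, 1, zero_ne_one⟩, h2, C, hC⟩

end Pool.Agent.Results.MP_1759d0_gt.HadamardOrderOne
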